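import Pool.Agent.K7.H74.BK.EvS

/-!
# MP_3923f3_nt: every triple of coefficients, almost all right-hand sides, with the exponent `1`, which is optimal

A quadruple `(a, b, c, d)` of integers is admissible (`Admissible`) if `a`, `b`, `c` are nonzero and
not all of the same sign, `a + b + c - d` is even, and each of `gcd(a, b, c)`, `gcd(d, a, b)`,
`gcd(d, a, c)`, `gcd(d, b, c)` is one. The question is how large the smallest solution in primes of
`a p + b q + c r = d` can be in terms of `m = max(3, |a|, |b|, |c|)`; the conjecture is that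
`max(p, q, r) ≤ 3 |d| + m ^ (1 + ε)`, up to small `m`.

**Theorem.** (1) Let `ε > 0`, `T`, `A` be given. For all `N ≥ N₀` and **all** `a`, `b`, `c` with
`|a b|, |b c|, |c a| ≤ N ^ (1 - ε)` and pairwise greatest common divisors at most `(log N) ^ T`: for all but
`N / (log N) ^ A` of the `d` with `3 |d| ≤ N` and `(a, b, c, d)` admissible the equation `a p + b q + c r = d`
has a solution in primes with `|a| p, |b| q, |c| r ≤ N`.

(2) In particular, for all large `m` and **all** `a`, `b`, `c` with absolute values between `m ^ (1 - ε)` and `m`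
and pairwise greatest common divisors at most `(log m) ^ T`, for all but `m ^ (2 + ε) / (log m) ^ A` of the
admissible `d` with `3 |d| ≤ m ^ (2 + ε)` there is a solution in primes `p, q, r ≤ m ^ (1 + 3 ε)`.

(3) The exponents are optimal: if `m` is odd, `(a, b, c) = (m, m + 1, -(m + 2))` (so the coefficients are pairwise
coprime) then all even `d` are admissible, but for `N ≥ m` at most `16 N ^ 2 / m ^ 2` integers `d` have a
solution with `|a| p, |b| q, |c| r ≤ N`; this is less than `16 N / m ^ ε` for `N ≤ m ^ (2 - ε)`.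

So for every triple of coefficients without large common divisors the exponent in the size of the primes is `1` for
almost all right-hand sides, unconditionally, and not smaller in general. There are no exceptional triples.

Proof of (1). Replace the von Mangoldt function by its sieve model in one variable after the other. The error, as a
function of `d`, is the convolution of a function whose exponential sum is small everywhere (Vinogradov, Siegel, Walfisz)
and of the function which counts the values of the binary form in the two other variables; its mean square is at most the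
square of the supremum times the additive energy of the binary form, which has the expected order as soon as
`N ≥ |b c|` (`EvD`). The model equation has solutions for all admissible `d` (the starting library, `Y883.T6.low`).
-/

set_option autoImplicit false

namespace Pool.Agent.Results.MP_3923f3_nt.AlmostAllRightHandSides

open Finset
open Pool.Agent.Y883.T5

/-- The equation `a p + b q + c r = d` has a solution in primes with `|a| p`, `|b| q`, `|c| r` at most `N`. -/
def Solvable (N : ℕ) (a b c d : ℤ) : Prop :=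
  ∃ p q r : ℕ, p.Prime ∧ q.Prime ∧ r.Prime ∧ a * p + b * q + c * r = d ∧
    a.natAbs * p ≤ N ∧ b.natAbs * q ≤ N ∧ c.natAbs * r ≤ N

open Classical in
/-- **Every triple of coefficients, almost all right-hand sides.** -/
theorem result :
    (∀ ε : ℝ, 0 < ε → ∀ T A : ℕ, ∃ N₀ : ℕ, ∀ N : ℕ, N₀ ≤ N → ∀ a b c : ℤ,
      ((a * b).natAbs : ℝ) ≤ (N : ℝ) ^ (1 - ε) → ((b * c).natAbs : ℝ) ≤ (N : ℝ) ^ (1 - ε) →
      ((c * a).natAbs : ℝ) ≤ (N : ℝ) ^ (1 - ε) → (Int.gcd a b : ℝ) ≤ Real.log N ^ T →
      (Int.gcd b c : ℝ) ≤ Real.log N ^ T → (Int.gcd c a : ℝ) ≤ Real.log N ^ T →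
      (((Icc (-(N : ℤ)) N).filter (fun d : ℤ => 3 * |d| ≤ N ∧ Admissible a b c d ∧ ¬ Solvable N a b c d)).card : ℝ) ≤
        N / Real.log N ^ A) ∧
    (∀ ε : ℝ, 0 < ε → ∀ T A : ℕ, ∃ m₀ : ℕ, ∀ m : ℕ, m₀ ≤ m → ∀ a b c : ℤ,
      (m : ℝ) ^ (1 - ε) ≤ |(a : ℝ)| → |(a : ℝ)| ≤ m → (m : ℝ) ^ (1 - ε) ≤ |(b : ℝ)| → |(b : ℝ)| ≤ m →
      (m : ℝ) ^ (1 - ε) ≤ |(c : ℝ)| → |(c : ℝ)| ≤ m → (Int.gcd a b : ℝ) ≤ Real.log m ^ T →
      (Int.gcd b c : ℝ) ≤ Real.log m ^ T → (Int.gcd c a : ℝ) ≤ Real.log m ^ T → ∀ D : Finset ℤ,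
      (∀ d ∈ D, 3 * |(d : ℝ)| ≤ (m : ℝ) ^ (2 + ε) ∧ Admissible a b c d ∧ ¬ ∃ p q r : ℕ, p.Prime ∧ q.Prime ∧ r.Prime ∧
        a * p + b * q + c * r = d ∧ (p : ℝ) ≤ (m : ℝ) ^ (1 + 3 * ε) ∧ (q : ℝ) ≤ (m : ℝ) ^ (1 + 3 * ε) ∧
        (r : ℝ) ≤ (m : ℝ) ^ (1 + 3 * ε)) →
      (D.card : ℝ) ≤ (m : ℝ) ^ (2 + ε) / Real.log m ^ A) ∧
    (∀ m : ℕ, Odd m → (∀ d : ℤ, Even d → Admissible (m : ℤ) (m + 1) (-(m + 2)) d) ∧
      ∀ N : ℕ, m ≤ N → ∀ D : Finset ℤ, (∀ d ∈ D, Solvable N m (m + 1) (-(m + 2)) d) →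
        (D.card : ℝ) ≤ 16 * (N : ℝ) ^ 2 / (m : ℝ) ^ 2) := by
  refine ⟨fun ε hε T A => ?_, fun ε hε T A => Pool.Agent.K7.H74.BK.balanced ε hε T A, fun m hm =>
    ⟨fun d hd => Pool.Agent.K7.H74.BK.adm_consec hm hd, fun N hN D hD =>
      Pool.Agent.K7.H74.BK.few_consec hm.pos hN D hD⟩⟩
  obtain ⟨N₀, h⟩ := Pool.Agent.K7.H74.BK.every_triple T A ε hε
  refine ⟨N₀, fun N hN a b c q12 q23 q31 g12 g23 g31 => ?_⟩
  exact h N hN a b c q12 q23 q31 g12 g23 g31

end Pool.Agent.Results.MP_3923f3_nt.AlmostAllRightHandSides
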