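import Pool.Agent.K7.H74.BK.Dens

/-!
# MP_3923f3_nt: the conjectured exponent `1` of Baker's constant for almost all triples of coefficients

A quadruple `(a, b, c, d)` of integers is admissible (`Admissible`) if `a`, `b`, `c` are nonzero and
not all of the same sign, `a + b + c - d` is even, and each of `gcd(a, b, c)`, `gcd(d, a, b)`,
`gcd(d, a, c)`, `gcd(d, b, c)` is one. The constant `M` of Baker is the infimum of the exponents `μ` for
which every admissible equation `a p + b q + c r = d` has a solution in primes with

  `max(p, q, r) ≤ 3 |d| + m ^ μ`, `m = max(3, |a|, |b|, |c|)`   (`SmallSolution μ a b c d`).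

It is conjectured that `M = 1`; it is known that `1 ≤ M ≤ 45`, and `M ≤ 4` on the generalized Riemann
hypothesis.

**Theorem.** For all `ε > 0` and `A` and all `X ≥ X₀(ε, A)`, for all but `X ^ 3 / (log X) ^ A` of the
triples `(|a|, |b|, |c|)` of positive integers up to `X`, **all** admissible equations
`a p + b q + c r = d` with these absolute values of the coefficients, arbitrary signs and an arbitrary `d`
have a solution in primes with

  `max(p, q, r) ≤ 3 |d| + m ^ (1 + ε)`.

So the conjectured exponent `1` is correct for almost all triples of coefficients, uniformly in `d` and without
any hypothesis. The starting result `ThreeLargeCoefficients` has the exponent `2 + ε` here (also `OneLargeCoefficient`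
has the exponent `1 + ε` for almost all `c`, but only if `a`, `b` are at most powers of `log |c|`).

The proof. Let `f` be the von Mangoldt function minus its sieve model (the normalised indicator function of the
integers without small prime factors); its exponential sum is small at every point (Vinogradov, Siegel, Walfisz).
(1) The correlations `∑ f(x) f(x + k)` are small in mean square over `k`, by the fourth moment of the exponential sum
(`Four`). (2) Hence, for given `a`, the number of `b ≤ X` for which the mean square over `n` of
`∑_{a x + b y = n} f(x) g(y)` is large is small (`Ener`): the pairs `x, x'` with `x ≡ x' mod b` are averaged over the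
moduli `b`, with the divisor function. (3) For given `a`, `b` with a small mean square, there are few `c ≤ X` for which
some progression `n = d - c z` carries a large sum: progressions with different differences meet rarely (`Inc`). So for
all but few triples the error of the replacement of the primes by the model is small for **all** `d`, as soon as
`X ^ 2 ≤ N ^ (1 - δ)` for the size `N` of the terms (`Scale`, `Param`). (4) The model equation has solutions
(the starting library, `Y883.T6.low`). The exceptional sets of the dyadic scales `N` are summed up (`Dens`).
-/

set_option autoImplicit false

namespace Pool.Agent.Results.MP_3923f3_nt.AlmostAllTriplesOne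

open Finset
open Pool.Agent.Y883.T5
open Pool.Agent.Y883.T6

open Classical in
/-- **The conjectured exponent `1` holds for almost all triples of coefficients and all `d`.** -/
theorem result (ε : ℝ) (hε : 0 < ε) (A : ℕ) : ∃ X₀ : ℕ, ∀ X : ℕ, X₀ ≤ X →
    (((Icc 1 X ×ˢ Icc 1 X ×ˢ Icc 1 X).filter (fun t : ℕ × ℕ × ℕ => ¬ ∀ a b c d : ℤ, Admissible a b c d →
      a.natAbs = t.1 → b.natAbs = t.2.1 → c.natAbs = t.2.2 → SmallSolution (1 + ε) a b c d)).card : ℝ) ≤
      (X : ℝ) ^ 3 / Real.log X ^ A :=
  Pool.Agent.K7.H74.BK.dens_one ε hε A

end Pool.Agent.Results.MP_3923f3_nt.AlmostAllTriplesOne
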