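import Pool.Agent.Results.MP_3923f3_nt.AlmostAllTriplesOne

/-!
# The conjectured exponent `1` of Baker's constant at the roundings of the multiples of almost all points

Let `v_n` be positive numbers with `v_n ≥ exp (n ^ c)` for large `n`, for some `c > 0`; for instance `v_n = 10 ^ n` or
`v_n = n ^ (log n)`. For almost all points `x` of `ℝ ^ 3` (Lebesgue measure), for all `ε > 0` and `B`, and for all but
finitely many `n`, ALL admissible equations `a p + b q + c r = d` whose triple of coefficients `(a, b, c)` is one of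
the integer points at distance at most `(log v_n) ^ B` from `v_n x`, with arbitrary `d`, have a solution in primes with

  `max(p, q, r) ≤ 3 |d| + m ^ (1 + ε)`, `m = max(3, |a|, |b|, |c|)`.

The proof is the lemma of Borel and Cantelli: by `AlmostAllTriplesOne` only `X ^ 3 / (log X) ^ A` of the triples up to `X`
are exceptional, for each `A`.
-/

set_option autoImplicit false

namespace Pool.Agent.Results.MP_3923f3_nt.RoundingsOfAlmostAllPoints

open MeasureTheory Filter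
open Pool.Agent.Y883.T5 (Admissible)
open Pool.Agent.Y883.T6 (SmallSolution)

/-- the exceptional triples of coefficients -/
def Bad (ε : ℝ) : Set (Fin 3 → ℤ) :=
  {a | ∃ d : ℤ, Admissible (a 0) (a 1) (a 2) d ∧ ¬ SmallSolution (1 + ε) (a 0) (a 1) (a 2) d}

/-- the exceptional triples in a cube -/
theorem bad_count (ε : ℝ) (hε : 0 < ε) (A : ℕ) : ∃ X₀ : ℕ, ∀ X : ℕ, X₀ ≤ X →
    {a | a ∈ Bad ε ∧ ∀ i, |a i| ≤ (X : ℤ)}.Finite ∧
    ({a | a ∈ Bad ε ∧ ∀ i, |a i| ≤ (X : ℤ)}.ncard : ℝ) ≤ 8 * ((X : ℝ) ^ 3 / Real.log X ^ A) := by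
  classical
  obtain ⟨X₀, h⟩ := AlmostAllTriplesOne.result ε hε A
  refine ⟨X₀, fun X hX => ?_⟩
  set T : Finset (ℕ × ℕ × ℕ) := (Finset.Icc 1 X ×ˢ Finset.Icc 1 X ×ˢ Finset.Icc 1 X).filter
    (fun t : ℕ × ℕ × ℕ => ¬ ∀ a b c d : ℤ, Admissible a b c d → a.natAbs = t.1 → b.natAbs = t.2.1 →
      c.natAbs = t.2.2 → SmallSolution (1 + ε) a b c d) with hT
  have hTc : (T.card : ℝ) ≤ (X : ℝ) ^ 3 / Real.log X ^ A := by
    rw [hT]
    convert h X hX using 3
  let U : Finset ((Fin 3 → Bool) × (ℕ × ℕ × ℕ)) := Finset.univ ×ˢ T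
  let Φ : (Fin 3 → ℤ) → (Fin 3 → Bool) × (ℕ × ℕ × ℕ) := fun a =>
    (fun i => decide (0 ≤ a i), ((a 0).natAbs, (a 1).natAbs, (a 2).natAbs))
  have hinj : Function.Injective Φ := by
    intro a b hab
    simp only [Φ, Prod.mk.injEq] at hab
    obtain ⟨h1, h2, h3, h4⟩ := hab
    have key : ∀ i, (a i).natAbs = (b i).natAbs → a i = b i := by
      intro i hi
      have h5 := congrFun h1 i
      simp only [decide_eq_decide] at h5
      omega
    funext i
    fin_cases i
    · exact key 0 h2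
    · exact key 1 h3
    · exact key 2 h4
  have himg : Φ '' {a | a ∈ Bad ε ∧ ∀ i, |a i| ≤ (X : ℤ)} ⊆ (U : Set _) := by
    rintro _ ⟨a, ⟨⟨d, h1, h2⟩, h3⟩, rfl⟩
    rw [Finset.mem_coe, Finset.mem_product]
    refine ⟨Finset.mem_univ _, ?_⟩
    simp only [Φ, hT, Finset.mem_filter, Finset.mem_product, Finset.mem_Icc]
    have h0 := h3 0
    have h4 := h3 1
    have h5 := h3 2
    rw [Int.abs_eq_natAbs] at h0 h4 h5
    have hne : a 0 ≠ 0 ∧ a 1 ≠ 0 ∧ a 2 ≠ 0 := ⟨h1.a_ne, h1.b_ne, h1.c_ne⟩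
    refine ⟨⟨⟨by omega, by omega⟩, ⟨by omega, by omega⟩, by omega, by omega⟩, fun hcon => ?_⟩
    exact h2 (hcon (a 0) (a 1) (a 2) d h1 rfl rfl rfl)
  have hfin : {a | a ∈ Bad ε ∧ ∀ i, |a i| ≤ (X : ℤ)}.Finite :=
    Set.Finite.of_finite_image ((Finset.finite_toSet U).subset himg) hinj.injOn
  refine ⟨hfin, ?_⟩
  have h1 : {a | a ∈ Bad ε ∧ ∀ i, |a i| ≤ (X : ℤ)}.ncard ≤ U.card := by
    rw [← Set.ncard_image_of_injective _ hinj, ← Set.ncard_coe_finset]
    exact Set.ncard_le_ncard himg (Finset.finite_toSet U)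
  have h2 : U.card = 8 * T.card := by
    simp only [U, Finset.card_product, Finset.card_univ, Fintype.card_pi, Fintype.card_bool,
      Finset.prod_const, Fintype.card_fin]
    norm_num
  have h3 : ({a | a ∈ Bad ε ∧ ∀ i, |a i| ≤ (X : ℤ)}.ncard : ℝ) ≤ 8 * (T.card : ℝ) := by
    rw [h2] at h1
    exact_mod_cast h1
  linarith

/-- the statement for one set of parameters -/
theorem one (v : ℕ → ℝ) (c : ℝ) (hc : 0 < c) (hv : ∀ᶠ n : ℕ in atTop, Real.exp ((n : ℝ) ^ c) ≤ v n)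
    (ε : ℝ) (hε : 0 < ε) (K R B : ℕ) :
    ∀ᵐ x : Fin 3 → ℝ, ∀ᶠ n : ℕ in atTop, ¬ ((∀ i, |x i| ≤ R) ∧
      ∃ a ∈ Bad ε, ∀ i, |((a i : ℤ) : ℝ) - v n * x i| ≤ K * Real.log (v n) ^ B) := by
  classical
  obtain ⟨A', hA'⟩ := exists_nat_ge (2 / c)
  obtain ⟨X₀, hX₀⟩ := bad_count ε hε (3 * B + A')
  set D : ℝ := (R : ℝ) + K + 2 with hD
  have hD1 : 1 ≤ D := by
    have h1 : (0 : ℝ) ≤ R := Nat.cast_nonneg R
    have h2 : (0 : ℝ) ≤ K := Nat.cast_nonneg K
    rw [hD]
    linarith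
  -- conditions for large `n`
  have hpow : Tendsto (fun n : ℕ => (n : ℝ) ^ c) atTop atTop :=
    (tendsto_rpow_atTop hc).comp tendsto_natCast_atTop_atTop
  have hvt : Tendsto v atTop atTop := by
    refine tendsto_atTop_mono' atTop hv ?_
    exact Real.tendsto_exp_atTop.comp hpow
  have hlogB : ∀ᶠ n : ℕ in atTop, Real.log (v n) ^ B ≤ v n := by
    have h1 := (Real.isLittleO_pow_log_id_atTop (n := B)).bound (c := 1) one_pos
    have h2 := hvt.eventually h1
    filter_upwards [h2, hvt.eventually_ge_atTop 1] with n hn hn1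
    simp only [Real.norm_eq_abs, id_eq, one_mul] at hn
    rw [abs_of_nonneg (by linarith : (0 : ℝ) ≤ v n)] at hn
    exact (le_abs_self _).trans hn
  have hcond : ∀ᶠ n : ℕ in atTop, Real.exp ((n : ℝ) ^ c) ≤ v n ∧ 1 ≤ v n ∧ Real.log (v n) ^ B ≤ v n ∧
      (X₀ : ℝ) ≤ v n ∧ 1 ≤ n := by
    filter_upwards [hv, hvt.eventually_ge_atTop 1, hlogB, hvt.eventually_ge_atTop (X₀ : ℝ),
      eventually_ge_atTop 1] with n h1 h2 h3 h4 h5
    exact ⟨h1, h2, h3, h4, h5⟩
  obtain ⟨n₀, hn₀⟩ := eventually_atTop.1 hcond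
  let s : ℕ → Set (Fin 3 → ℝ) := fun n => {x | n₀ ≤ n ∧ (∀ i, |x i| ≤ R) ∧
      ∃ a ∈ Bad ε, ∀ i, |((a i : ℤ) : ℝ) - v n * x i| ≤ K * Real.log (v n) ^ B}
  set C : ℝ := 64 * (D + 1) ^ 3 * (K : ℝ) ^ 3 with hC
  have hμ : ∀ n, volume (s n) ≤ ENNReal.ofReal (C * (1 / (n : ℝ) ^ 2)) := by
    intro n
    by_cases hn : n₀ ≤ n
    swap
    · have : s n = ∅ := by
        rw [Set.eq_empty_iff_forall_notMem]
        rintro x ⟨h1, -⟩
        exact hn h1
      rw [this]
      simp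
    obtain ⟨h1, h2, h3, h4, h5⟩ := hn₀ n hn
    have hv0 : 0 < v n := by linarith
    have hn1 : (1 : ℝ) ≤ n := by exact_mod_cast h5
    set Λ : ℝ := Real.log (v n) with hΛ
    have hΛ1 : (n : ℝ) ^ c ≤ Λ := by
      rw [hΛ, Real.le_log_iff_exp_le hv0]
      exact h1
    have hΛ2 : 1 ≤ Λ := (Real.one_le_rpow hn1 hc.le).trans hΛ1
    set X : ℕ := ⌈D * v n⌉₊ with hX
    have hX1 : D * v n ≤ X := Nat.le_ceil _
    have hX2 : (X : ℝ) ≤ (D + 1) * v n := by
      have := (Nat.ceil_lt_add_one (show 0 ≤ D * v n by positivity)).le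
      rw [← hX] at this
      nlinarith
    have hXv : v n ≤ X := by nlinarith
    have hXX₀ : X₀ ≤ X := by exact_mod_cast h4.trans hXv
    obtain ⟨hf, hcount⟩ := hX₀ X hXX₀
    have hlogX : Λ ≤ Real.log X := Real.log_le_log hv0 hXv
    set r : ℝ := K * Λ ^ B / v n with hr
    have hr0 : 0 ≤ r := by positivity
    have hsub : s n ⊆ ⋃ a ∈ hf.toFinset, Metric.closedBall (fun i => ((a i : ℤ) : ℝ) / v n) r := by
      rintro x ⟨-, hx, a, ha, hax⟩
      rw [Set.mem_iUnion₂]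
      refine ⟨a, ?_, ?_⟩
      · rw [Set.Finite.mem_toFinset]
        refine ⟨ha, fun i => ?_⟩
        have h6 : |((a i : ℤ) : ℝ)| ≤ |((a i : ℤ) : ℝ) - v n * x i| + |v n * x i| := by
          have := abs_add_le (((a i : ℤ) : ℝ) - v n * x i) (v n * x i)
          rwa [sub_add_cancel] at this
        have h7 : |v n * x i| ≤ v n * R := by
          rw [abs_mul, abs_of_pos hv0]
          exact mul_le_mul_of_nonneg_left (hx i) hv0.le
        have h8 : (K : ℝ) * Λ ^ B ≤ K * v n := mul_le_mul_of_nonneg_left h3 (Nat.cast_nonneg K)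
        have h9 : |((a i : ℤ) : ℝ)| ≤ (X : ℝ) := by
          have h10 := hax i
          calc |((a i : ℤ) : ℝ)| ≤ K * Λ ^ B + v n * R := h6.trans (add_le_add h10 h7)
            _ ≤ D * v n := by rw [hD]; nlinarith
            _ ≤ X := hX1
        have h11 : ((|a i| : ℤ) : ℝ) ≤ ((X : ℤ) : ℝ) := by
          push_cast
          exact h9
        exact_mod_cast h11
      · rw [Metric.mem_closedBall, dist_pi_le_iff hr0]
        intro i
        rw [Real.dist_eq]
        have e1 : x i - ((a i : ℤ) : ℝ) / v n = -((((a i : ℤ) : ℝ) - v n * x i) / v n) := by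
          field_simp
          ring
        rw [e1, abs_neg, abs_div, abs_of_pos hv0, hr]
        exact div_le_div_of_nonneg_right (hax i) hv0.le
    calc volume (s n) ≤ volume (⋃ a ∈ hf.toFinset, Metric.closedBall (fun i => ((a i : ℤ) : ℝ) / v n) r) :=
          measure_mono hsub
      _ ≤ ∑ a ∈ hf.toFinset, volume (Metric.closedBall (fun i => ((a i : ℤ) : ℝ) / v n) r) :=
          measure_biUnion_finset_le _ _
      _ = ∑ a ∈ hf.toFinset, ENNReal.ofReal ((2 * r) ^ 3) := by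
          refine Finset.sum_congr rfl fun a _ => ?_
          rw [Real.volume_pi_closedBall _ hr0, Fintype.card_fin]
      _ = ENNReal.ofReal ((hf.toFinset.card : ℝ) * (2 * r) ^ 3) := by
          rw [Finset.sum_const, nsmul_eq_mul, ENNReal.ofReal_mul (Nat.cast_nonneg _),
            ENNReal.ofReal_natCast]
      _ ≤ ENNReal.ofReal (C * (1 / (n : ℝ) ^ 2)) := by
          apply ENNReal.ofReal_le_ofReal
          rw [Set.ncard_eq_toFinset_card _ hf] at hcount
          have hΛA : Λ ^ (3 * B + A') ≤ Real.log X ^ (3 * B + A') :=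
            pow_le_pow_left₀ (by linarith) hlogX _
          have hpos : 0 < Λ ^ (3 * B + A') := by positivity
          have h6 : (hf.toFinset.card : ℝ) ≤ 8 * (((D + 1) * v n) ^ 3 / Λ ^ (3 * B + A')) := by
            refine hcount.trans ?_
            refine mul_le_mul_of_nonneg_left ?_ (by norm_num)
            exact div_le_div₀ (by positivity) (pow_le_pow_left₀ (Nat.cast_nonneg _) hX2 3) hpos hΛA
          have h7 : (2 * r) ^ 3 = 8 * (K : ℝ) ^ 3 * Λ ^ (3 * B) / (v n) ^ 3 := by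
            rw [hr, pow_mul']
            field_simp
            ring
          have h8 : (1 : ℝ) / Λ ^ A' ≤ 1 / (n : ℝ) ^ 2 := by
            have h9 : (n : ℝ) ^ 2 ≤ Λ ^ A' := by
              calc (n : ℝ) ^ 2 = (n : ℝ) ^ (2 : ℝ) := by norm_cast
                _ ≤ (n : ℝ) ^ (c * A') := by
                    refine Real.rpow_le_rpow_of_exponent_le hn1 ?_
                    rw [div_le_iff₀ hc] at hA'
                    linarith
                _ = ((n : ℝ) ^ c) ^ A' := by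
                    rw [Real.rpow_mul (by linarith), Real.rpow_natCast]
                _ ≤ Λ ^ A' := pow_le_pow_left₀ (by positivity) hΛ1 _
            exact one_div_le_one_div_of_le (by positivity) h9
          calc (hf.toFinset.card : ℝ) * (2 * r) ^ 3
              ≤ 8 * (((D + 1) * v n) ^ 3 / Λ ^ (3 * B + A')) * (2 * r) ^ 3 :=
                mul_le_mul_of_nonneg_right h6 (by positivity)
            _ = C * (1 / Λ ^ A') := by
                rw [h7, hC, pow_add]
                field_simp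
                ring
            _ ≤ C * (1 / (n : ℝ) ^ 2) := mul_le_mul_of_nonneg_left h8 (by positivity)
  have hsum : (∑' n, volume (s n)) ≠ ⊤ := by
    refine ne_top_of_le_ne_top ?_ (ENNReal.tsum_le_tsum hμ)
    refine Summable.tsum_ofReal_ne_top ?_
    exact (Real.summable_one_div_nat_pow.2 (by norm_num)).mul_left C
  filter_upwards [ae_eventually_notMem hsum] with x hx
  filter_upwards [hx, eventually_ge_atTop n₀] with n hn hn1 hcon
  exact hn ⟨hn1, hcon⟩

/-- **Theorem.** Let `v_n ≥ exp (n ^ c)` for all large `n`, where `c > 0`. For almost all `x` in `ℝ ^ 3`, for all `ε > 0`, `κ` and `B`,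
for all but finitely many `n`: for ALL integers `a_0`, `a_1`, `a_2` with `|a_i - v_n x_i| ≤ κ (log v_n) ^ B` and all `d` such that
`(a_0, a_1, a_2, d)` is admissible the equation `a_0 p + a_1 q + a_2 r = d` has a solution in primes with
`max(p, q, r) ≤ 3 |d| + max(3, |a_0|, |a_1|, |a_2|) ^ (1 + ε)`. -/
theorem result (v : ℕ → ℝ) (c : ℝ) (hc : 0 < c) (hv : ∀ᶠ n : ℕ in atTop, Real.exp ((n : ℝ) ^ c) ≤ v n) :
    ∀ᵐ x : Fin 3 → ℝ, ∀ (ε κ : ℝ) (B : ℕ), 0 < ε → ∀ᶠ n : ℕ in atTop, ∀ (a : Fin 3 → ℤ) (d : ℤ),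
      (∀ i, |((a i : ℤ) : ℝ) - v n * x i| ≤ κ * Real.log (v n) ^ B) →
      Admissible (a 0) (a 1) (a 2) d → SmallSolution (1 + ε) (a 0) (a 1) (a 2) d := by
  have h1 : ∀ᵐ x : Fin 3 → ℝ, ∀ m K R B : ℕ, ∀ᶠ n : ℕ in atTop, ¬ ((∀ i, |x i| ≤ R) ∧
      ∃ a ∈ Bad (1 / ((m : ℝ) + 1)), ∀ i, |((a i : ℤ) : ℝ) - v n * x i| ≤ K * Real.log (v n) ^ B) := by
    simp only [ae_all_iff]
    intro m K R B
    exact one v c hc hv _ (by positivity) K R B
  have hvt : Tendsto v atTop atTop := by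
    refine tendsto_atTop_mono' atTop hv ?_
    exact Real.tendsto_exp_atTop.comp ((tendsto_rpow_atTop hc).comp tendsto_natCast_atTop_atTop)
  filter_upwards [h1] with x hx ε κ B hε
  obtain ⟨m, hm⟩ := exists_nat_one_div_lt hε
  obtain ⟨K, hK⟩ := exists_nat_ge κ
  obtain ⟨R, hR⟩ := exists_nat_ge (∑ i, |x i|)
  filter_upwards [hx m K R B, hvt.eventually_ge_atTop 1] with n hn hn1 a d ha hadm
  by_contra hcon
  apply hn
  refine ⟨fun i => ?_, a, ⟨d, hadm, fun hs => hcon ?_⟩, fun i => ?_⟩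
  · exact (Finset.single_le_sum (f := fun i => |x i|) (fun i _ => abs_nonneg _) (Finset.mem_univ i)).trans hR
  · obtain ⟨p, q, r, g1, g2, g3, g4, g5⟩ := hs
    refine ⟨p, q, r, g1, g2, g3, g4, g5.trans ?_⟩
    have h3 : (1 : ℝ) ≤ ((max 3 (max |a 0| (max |a 1| |a 2|)) : ℤ) : ℝ) := by
      have : (3 : ℤ) ≤ max 3 (max |a 0| (max |a 1| |a 2|)) := le_max_left _ _
      have h4 : (3 : ℝ) ≤ ((max 3 (max |a 0| (max |a 1| |a 2|)) : ℤ) : ℝ) := by exact_mod_cast this
      linarith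
    have h5 := Real.rpow_le_rpow_of_exponent_le h3 (show 1 + 1 / ((m : ℝ) + 1) ≤ 1 + ε by linarith)
    linarith
  · refine (ha i).trans ?_
    exact mul_le_mul_of_nonneg_right hK (pow_nonneg (Real.log_nonneg hn1) _)

end Pool.Agent.Results.MP_3923f3_nt.RoundingsOfAlmostAllPoints
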