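import Mathlib

/-!
# MP_3923f3_nt: Baker's constant, taken literally, is at least `log 13 / log 3 > 7 / 3`

A quadruple `(a, b, c, d)` of integers is admissible (`Admissible`) if `a`, `b`, `c` are nonzero and
not all of the same sign, `a + b + c - d` is even, and each of `gcd(a, b, c)`, `gcd(d, a, b)`,
`gcd(d, a, c)`, `gcd(d, b, c)` is one. A real number `μ` is good (`Good μ`) if **every** admissible equation
`a p + b q + c r = d` has a solution in primes with

  `max(p, q, r) ≤ 3 |d| + m ^ μ`, `m = max(3, |a|, |b|, |c|)`,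

and the constant `M` of Baker is the infimum of the good numbers.

**Theorem.** Every good `μ` satisfies `μ ≥ log 13 / log 3`, and `log 13 / log 3 > 7 / 3`. So `M > 7 / 3`; in
particular the infimum of the good numbers is not `1`.

The reason is the admissible equation `2 p + 3 q = r` (that is `(a, b, c, d) = (2, 3, -1, 0)`, `m = 3`): in every
solution in primes `r ≥ 13`. So the conjecture `M = 1` cannot hold for the constant defined with all admissible
quadruples; it can only be meant for `m → ∞` (or with a constant factor before `m ^ μ`). Nothing is proved here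
about the constant for large `m`.
-/

set_option autoImplicit false

namespace Pool.Agent.Results.MP_3923f3_nt.SmallCaseLowerBound

/-- the admissible quadruples -/
structure Admissible (a b c d : ℤ) : Prop where
  a_ne : a ≠ 0
  b_ne : b ≠ 0
  c_ne : c ≠ 0
  not_pos : ¬ (0 < a ∧ 0 < b ∧ 0 < c)
  not_neg : ¬ (a < 0 ∧ b < 0 ∧ c < 0)
  even : Even (a + b + c - d)
  gcd_abc : Int.gcd (Int.gcd a b) c = 1
  gcd_dab : Int.gcd (Int.gcd d a) b = 1
  gcd_dac : Int.gcd (Int.gcd d a) c = 1
  gcd_dbc : Int.gcd (Int.gcd d b) c = 1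

/-- the good exponents: every admissible equation `a p + b q + c r = d` has a solution in primes with
`max(p, q, r) ≤ 3 |d| + m ^ μ`, `m = max(3, |a|, |b|, |c|)` -/
def Good (μ : ℝ) : Prop :=
  ∀ a b c d : ℤ, Admissible a b c d →
    ∃ p q r : ℕ, p.Prime ∧ q.Prime ∧ r.Prime ∧ a * p + b * q + c * r = d ∧
      ((max p (max q r) : ℕ) : ℝ) ≤ 3 * |(d : ℝ)| + ((max 3 (max |a| (max |b| |c|)) : ℤ) : ℝ) ^ μ

lemma adm : Admissible 2 3 (-1) 0 := by
  refine ⟨by norm_num, by norm_num, by norm_num, by norm_num, by norm_num, ?_, by decide, by decide, by decide,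
    by decide⟩
  exact ⟨2, by norm_num⟩

lemma r_ge {p q r : ℕ} (hp : p.Prime) (hq : q.Prime) (hr : r.Prime)
    (h : (2 : ℤ) * p + 3 * q + (-1) * r = 0) : 13 ≤ r := by
  have h1 : r = 2 * p + 3 * q := by
    have : (r : ℤ) = 2 * p + 3 * q := by linarith
    exact_mod_cast this
  by_contra hcon
  have hp2 := hp.two_le
  have hq2 := hq.two_le
  have hp3 : p ≤ 3 := by omega
  have hq3 : q ≤ 2 := by omega
  have hq4 : q = 2 := by omega
  subst hq4
  interval_cases p
  · rw [h1] at hr
    norm_num at hr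
  · rw [h1] at hr
    norm_num at hr

/-- **Baker's constant, taken literally, is at least `log 13 / log 3 > 7 / 3`, hence it is not `1`.** -/
theorem result :
    (∀ μ : ℝ, Good μ → Real.log 13 / Real.log 3 ≤ μ) ∧ (7 / 3 : ℝ) < Real.log 13 / Real.log 3 ∧
      ¬ IsGLB {μ : ℝ | Good μ} 1 := by
  have h3 : 0 < Real.log 3 := Real.log_pos (by norm_num)
  have h1 : ∀ μ : ℝ, Good μ → Real.log 13 / Real.log 3 ≤ μ := by
    intro μ hμ
    obtain ⟨p, q, r, hp, hq, hr, heq, hle⟩ := hμ 2 3 (-1) 0 adm
    have hr13 := r_ge hp hq hr heq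
    have e1 : ((max 3 (max |(2 : ℤ)| (max |3| |(-1)|)) : ℤ) : ℝ) = 3 := by norm_num
    rw [e1] at hle
    have e2 : (13 : ℝ) ≤ (3 : ℝ) ^ μ := by
      have e3 : (13 : ℝ) ≤ ((max p (max q r) : ℕ) : ℝ) := by
        exact_mod_cast hr13.trans ((le_max_right q r).trans (le_max_right p _))
      have e4 : (3 : ℝ) * |((0 : ℤ) : ℝ)| = 0 := by norm_num
      rw [e4, zero_add] at hle
      exact e3.trans hle
    rw [div_le_iff₀ h3, ← Real.log_rpow (by norm_num)]
    exact Real.log_le_log (by norm_num) e2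
  have h2 : (7 / 3 : ℝ) < Real.log 13 / Real.log 3 := by
    rw [lt_div_iff₀ h3]
    have e1 : Real.log ((3 : ℝ) ^ 7) < Real.log ((13 : ℝ) ^ 3) := Real.log_lt_log (by norm_num) (by norm_num)
    rw [Real.log_pow, Real.log_pow] at e1
    push_cast at e1
    linarith
  refine ⟨h1, h2, fun h => ?_⟩
  have h4 : Real.log 13 / Real.log 3 ∈ lowerBounds {μ : ℝ | Good μ} := fun μ hμ => h1 μ hμ
  have h5 := h.2 h4
  linarith

end Pool.Agent.Results.MP_3923f3_nt.SmallCaseLowerBound
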